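import Pool.Agent.H70.PT.Targets

/-!
# Row UPP: the upper bound for the length (helper63)
-/

set_option autoImplicit false

open Finset Pool.Agent.H70.PT

namespace Pool.Agent.H63.PT

private theorem markov (r m : ℕ) (p : (Fin r → ℕ) → (Fin r → ℕ) → Prop)
    (F : (Fin r → ℕ) → (Fin r → ℕ) → ℝ) (c : ℝ)
    (hF : ∀ X Y : Fin r → Fin (2 ^ m), 0 ≤ F (fun i => X i) (fun i => Y i))
    (hp : ∀ X Y : Fin r → Fin (2 ^ m), p (fun i => X i) (fun i => Y i) →
      c ≤ F (fun i => X i) (fun i => Y i)) :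
    NN r m p * c ≤ SS r m F := by
  classical
  have h1 : NN r m p = ((univ.filter fun q : (Fin r → Fin (2 ^ m)) × (Fin r → Fin (2 ^ m)) =>
      p (fun i => q.1 i) (fun i => q.2 i)).card : ℝ) := by
    unfold NN
    rw [Set.ncard_eq_toFinset_card']
    congr 2
    ext q
    simp
  have h2 : SS r m F = ∑ q : (Fin r → Fin (2 ^ m)) × (Fin r → Fin (2 ^ m)),
      F (fun i => q.1 i) (fun i => q.2 i) := by
    unfold SS
    rw [Fintype.sum_prod_type]
  rw [h1, h2]
  calc ((univ.filter fun q : (Fin r → Fin (2 ^ m)) × (Fin r → Fin (2 ^ m)) =>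
      p (fun i => q.1 i) (fun i => q.2 i)).card : ℝ) * c
      = ∑ _q ∈ univ.filter (fun q : (Fin r → Fin (2 ^ m)) × (Fin r → Fin (2 ^ m)) =>
        p (fun i => q.1 i) (fun i => q.2 i)), c := by
        rw [sum_const, nsmul_eq_mul]
    _ ≤ ∑ q ∈ univ.filter (fun q : (Fin r → Fin (2 ^ m)) × (Fin r → Fin (2 ^ m)) =>
        p (fun i => q.1 i) (fun i => q.2 i)), F (fun i => q.1 i) (fun i => q.2 i) :=
        sum_le_sum fun q hq => hp q.1 q.2 (mem_filter.mp hq).2
    _ ≤ _ := sum_le_sum_of_subset_of_nonneg (filter_subset _ _) fun q _ _ => hF q.1 q.2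

private theorem SS_prod (r m : ℕ) (F : (Fin r → ℕ) → (Fin r → ℕ) → ℝ) :
    SS r m F = ∑ q : (Fin r → Fin (2 ^ m)) × (Fin r → Fin (2 ^ m)),
      F (fun i => q.1 i) (fun i => q.2 i) := by
  unfold SS
  rw [Fintype.sum_prod_type]

private theorem SS_lin (r m : ℕ) (A : ℝ) (f g : Fin r → (Fin r → ℕ) → (Fin r → ℕ) → ℝ) :
    SS r m (fun X Y => A * ∑ i, (f i X Y + 2 * g i X Y)) =
      A * ∑ i, (SS r m (f i) + 2 * SS r m (g i)) := by
  simp only [SS_prod]
  rw [← mul_sum, sum_comm]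
  congr 1
  refine sum_congr rfl fun i _ => ?_
  rw [sum_add_distrib, mul_sum]

private theorem SS_mono {r m : ℕ} {F G : (Fin r → ℕ) → (Fin r → ℕ) → ℝ}
    (h : ∀ X Y : Fin r → Fin (2 ^ m), F (fun i => X i) (fun i => Y i) ≤
      G (fun i => X i) (fun i => Y i)) : SS r m F ≤ SS r m G := by
  unfold SS
  exact sum_le_sum fun X _ => sum_le_sum fun Y _ => h X Y

private theorem rsum {ι : Type} (S : Finset ι) (f : ι → ℝ) (hf : ∀ i, 0 ≤ f i) {s : ℝ}
    (hs : 0 < s) (hs1 : s ≤ 1) : (∑ i ∈ S, f i) ^ s ≤ ∑ i ∈ S, f i ^ s := by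
  classical
  induction S using Finset.induction_on with
  | empty => rw [sum_empty, sum_empty, Real.zero_rpow hs.ne']
  | insert a S ha ih =>
    rw [sum_insert ha, sum_insert ha]
    have h1 := Real.rpow_add_le_add_rpow (hf a) (sum_nonneg fun i (_ : i ∈ S) => hf i) hs.le hs1
    linarith

theorem pf_UPP (MOM : T_MOM) (SIZ : T_SIZ) (IDN : T_IDN) : T_UPP := by
  intro r n m b ε hnm hr hb hb' hε hrb
  obtain ⟨hid, hs0, hs1, hw, hs34⟩ := IDN b hb hb'
  obtain ⟨s, hs⟩ : ∃ s, s = sx b := ⟨_, rfl⟩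
  rw [← hs] at hid hs0 hs1 hw ⊢
  have hrpos : (0 : ℝ) < r := by exact_mod_cast hr
  have h4 : (0 : ℝ) < (4 ^ m) ^ r := by positivity
  rcases eq_or_lt_of_le hs0 with h0 | hspos
  · -- the trivial case
    have h1 := markov r m (fun X Y => (r : ℝ) * 2 ^ m * 2 ^ ((mu b + ε) * n) < LL (ru n X Y))
      (fun _ _ => 1) 1 (fun _ _ => zero_le_one) (fun _ _ _ => le_rfl)
    have h2 : SS r m (fun _ _ => 1) = (4 ^ m) ^ r := by
      have h3 := (MOM r 0 m ⟨0, hr⟩ 1 (Nat.zero_le m)).1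
      simpa using h3
    rw [h2, mul_one] at h1
    rw [← h0, mul_zero, zero_mul, neg_zero, Real.rpow_zero]
    linarith
  · obtain ⟨T, hT⟩ : ∃ T : ℝ, T = (r : ℝ) * 2 ^ m * 2 ^ ((mu b + ε) * n) := ⟨_, rfl⟩
    have hTpos : 0 < T := by rw [hT]; positivity
    obtain ⟨w, hwd⟩ : ∃ w : ℝ, w = (3 : ℝ) ^ s := ⟨_, rfl⟩
    have hw0 : 0 ≤ w := by rw [hwd]; positivity
    obtain ⟨A, hA⟩ : ∃ A : ℝ, A = 2 ^ (m + 1) / 2 ^ n := ⟨_, rfl⟩
    have hApos : 0 < A := by rw [hA]; positivity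
    have h2s : (2 : ℝ) ^ s ≤ 2 := by
      calc (2 : ℝ) ^ s ≤ (2 : ℝ) ^ (1 : ℝ) :=
            Real.rpow_le_rpow_of_exponent_le (by norm_num) hs1
        _ = 2 := Real.rpow_one 2
    have hpow : ∀ P : ℕ, ((3 : ℝ) ^ P) ^ s = w ^ P := by
      intro P
      rw [hwd, ← Real.rpow_natCast, ← Real.rpow_natCast, ← Real.rpow_mul (by norm_num),
        ← Real.rpow_mul (by norm_num), mul_comm]
    -- the length
    have hlen : ∀ X Y : Fin r → Fin (2 ^ m),
        (LL (ru n (fun i => (X i : ℕ)) fun i => (Y i : ℕ)) : ℝ) ^ s ≤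
        A ^ s * ∑ i, (w ^ PP n (false, (fun i => (X i : ℕ)), fun i => (Y i : ℕ)) i +
          2 * w ^ QQ n (false, (fun i => (X i : ℕ)), fun i => (Y i : ℕ)) i) := by
      intro X Y
      obtain ⟨q, hq⟩ : ∃ q : Cf r, q = (false, (fun i => (X i : ℕ)), fun i => (Y i : ℕ)) :=
        ⟨_, rfl⟩
      have hqX : ∀ i, (q.2.1 i : ℝ) ≤ 2 ^ m := by
        intro i
        rw [hq]
        have := (X i).2.le
        exact_mod_cast this
      have hqY : ∀ i, (q.2.2 i : ℝ) ≤ 2 ^ m := by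
        intro i
        rw [hq]
        have := (Y i).2.le
        exact_mod_cast this
      have h2n : (0 : ℝ) < 2 ^ n := by positivity
      have h2nm : (2 : ℝ) ^ n ≤ 2 ^ m := pow_le_pow_right₀ (by norm_num) hnm
      have hX : ∀ i, ((nx^[n] q).2.1 i : ℝ) ≤ A * 3 ^ PP n q i := by
        intro i
        have h1 := (SIZ r n q i).1.2
        have h2 : (3 : ℝ) ^ PP n q i * (q.2.1 i + 2 ^ n) ≤ 3 ^ PP n q i * 2 ^ (m + 1) := by
          refine mul_le_mul_of_nonneg_left ?_ (by positivity)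
          rw [pow_succ]
          linarith [hqX i]
        rw [hA, div_mul_eq_mul_div, le_div_iff₀ h2n]
        linarith
      have hY : ∀ i, ((nx^[n] q).2.2 i : ℝ) ≤ A * 3 ^ QQ n q i := by
        intro i
        have h1 := (SIZ r n q i).2.2
        have h2 : (3 : ℝ) ^ QQ n q i * (q.2.2 i + 2 ^ n) ≤ 3 ^ QQ n q i * 2 ^ (m + 1) := by
          refine mul_le_mul_of_nonneg_left ?_ (by positivity)
          rw [pow_succ]
          linarith [hqY i]
        rw [hA, div_mul_eq_mul_div, le_div_iff₀ h2n]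
        linarith
      have hLL : (LL (nx^[n] q) : ℝ) ≤ A * ∑ i, ((3 : ℝ) ^ PP n q i + 2 * 3 ^ QQ n q i) := by
        unfold LL
        push_cast
        rw [mul_sum]
        refine sum_le_sum fun i _ => ?_
        have h1 := hX i
        have h2 := hY i
        rw [mul_add]
        linarith
      have hru : ru n (fun i => (X i : ℕ)) (fun i => (Y i : ℕ)) = nx^[n] q := by
        rw [hq]
        rfl
      rw [hru, ← hq]
      calc (LL (nx^[n] q) : ℝ) ^ s
          ≤ (A * ∑ i, ((3 : ℝ) ^ PP n q i + 2 * 3 ^ QQ n q i)) ^ s :=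
            Real.rpow_le_rpow (Nat.cast_nonneg _) hLL hs0
        _ = A ^ s * (∑ i, ((3 : ℝ) ^ PP n q i + 2 * 3 ^ QQ n q i)) ^ s :=
            Real.mul_rpow hApos.le (sum_nonneg fun i _ => by positivity)
        _ ≤ A ^ s * ∑ i, ((3 : ℝ) ^ PP n q i + 2 * 3 ^ QQ n q i) ^ s :=
            mul_le_mul_of_nonneg_left (rsum _ _ (fun i => by positivity) hspos hs1)
              (by positivity)
        _ ≤ A ^ s * ∑ i, (w ^ PP n q i + 2 * w ^ QQ n q i) := by
            refine mul_le_mul_of_nonneg_left (sum_le_sum fun i _ => ?_) (by positivity)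
            calc ((3 : ℝ) ^ PP n q i + 2 * 3 ^ QQ n q i) ^ s
                ≤ ((3 : ℝ) ^ PP n q i) ^ s + (2 * (3 : ℝ) ^ QQ n q i) ^ s :=
                  Real.rpow_add_le_add_rpow (by positivity) (by positivity) hs0 hs1
              _ = w ^ PP n q i + 2 ^ s * w ^ QQ n q i := by
                  rw [Real.mul_rpow (by norm_num) (by positivity), hpow, hpow]
              _ ≤ w ^ PP n q i + 2 * w ^ QQ n q i := by
                  have := mul_le_mul_of_nonneg_right h2s (pow_nonneg hw0 (QQ n q i))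
                  linarith
    -- Markov
    have hM := markov r m (fun X Y => (r : ℝ) * 2 ^ m * 2 ^ ((mu b + ε) * n) < LL (ru n X Y))
      (fun X Y => (LL (ru n X Y) : ℝ) ^ s) (T ^ s)
      (fun X Y => by positivity) (fun X Y hXY => by
        rw [← hT] at hXY
        exact Real.rpow_le_rpow hTpos.le hXY.le hs0)
    have hSS : SS r m (fun X Y => (LL (ru n X Y) : ℝ) ^ s) ≤
        A ^ s * (3 * r * ((4 ^ m) ^ r * ((1 + w) / 2) ^ n)) := by
      calc SS r m (fun X Y => (LL (ru n X Y) : ℝ) ^ s)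
          ≤ SS r m (fun X Y => A ^ s * ∑ i, (w ^ PP n (false, X, Y) i +
            2 * w ^ QQ n (false, X, Y) i)) := SS_mono hlen
        _ = A ^ s * ∑ i, (SS r m (fun X Y => w ^ PP n (false, X, Y) i) +
            2 * SS r m (fun X Y => w ^ QQ n (false, X, Y) i)) := by
            exact SS_lin r m (A ^ s) (fun i X Y => w ^ PP n (false, X, Y) i)
              (fun i X Y => w ^ QQ n (false, X, Y) i)
        _ = A ^ s * (3 * r * ((4 ^ m) ^ r * ((1 + w) / 2) ^ n)) := by
            rw [sum_congr rfl fun i _ => by rw [(MOM r n m i w hnm).1, (MOM r n m i w hnm).2],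
              sum_const, card_univ, Fintype.card_fin, nsmul_eq_mul]
            ring
    -- the exponents
    have h1b : 0 < 1 - b := by linarith
    obtain ⟨L, hL⟩ : ∃ L, L = Real.logb 2 (1 - b) := ⟨_, rfl⟩
    rw [← hL] at hid
    have hLp : (2 : ℝ) ^ L = 1 - b := by
      rw [hL]
      exact Real.rpow_logb (by norm_num) (by norm_num) h1b
    have hwn : ((1 + w) / 2) ^ n = (2 : ℝ) ^ ((-1 - L) * n) := by
      have h1 : (1 + w) / 2 = (2 : ℝ) ^ (-1 - L) := by
        rw [sub_eq_add_neg, Real.rpow_add (by norm_num), Real.rpow_neg (by norm_num),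
          Real.rpow_neg (by norm_num), hLp, Real.rpow_one, hwd, hw]
        field_simp
        ring
      rw [h1, ← Real.rpow_natCast, ← Real.rpow_mul (by norm_num)]
    have hAr : A ^ s = (2 : ℝ) ^ (((m : ℝ) + 1 - n) * s) := by
      have h1 : A = (2 : ℝ) ^ ((m : ℝ) + 1 - n) := by
        rw [hA, Real.rpow_sub (by norm_num), Real.rpow_natCast]
        congr 1
        rw [show (m : ℝ) + 1 = ((m + 1 : ℕ) : ℝ) by push_cast; ring, Real.rpow_natCast]
      rw [h1, ← Real.rpow_mul (by norm_num)]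
    have hTs : T ^ s = (r : ℝ) ^ s * (2 : ℝ) ^ (m * s + (mu b + ε) * n * s) := by
      rw [hT, Real.mul_rpow (by positivity) (by positivity),
        Real.mul_rpow (by positivity) (by positivity), ← Real.rpow_mul (by norm_num),
        ← Real.rpow_natCast 2 m, ← Real.rpow_mul (by norm_num), Real.rpow_add (by norm_num)]
      ring
    have hr1 : (r : ℝ) ^ (1 - s) ≤ (2 : ℝ) ^ ((1 - s) * ka b * n) := by
      rcases hrb with h | h
      · have h1 : s = 1 := by rw [hs, h, hs34]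
        rw [h1]
        simp
      · calc (r : ℝ) ^ (1 - s) ≤ ((2 : ℝ) ^ (ka b * n)) ^ (1 - s) :=
              Real.rpow_le_rpow hrpos.le h (by linarith)
          _ = (2 : ℝ) ^ ((1 - s) * ka b * n) := by
              rw [← Real.rpow_mul (by norm_num)]
              congr 1
              ring
    have hr2 : (r : ℝ) ≤ (r : ℝ) ^ s * (2 : ℝ) ^ ((1 - s) * ka b * n) := by
      calc (r : ℝ) = (r : ℝ) ^ s * (r : ℝ) ^ (1 - s) := by
            rw [← Real.rpow_add hrpos]
            norm_num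
        _ ≤ _ := mul_le_mul_of_nonneg_left hr1 (by positivity)
    have hkey : A ^ s * (3 * r * ((1 + w) / 2) ^ n) ≤
        12 * 2 ^ (-(ε * s * n)) * T ^ s := by
      rw [hwn, hAr, hTs]
      have e1 : (2 : ℝ) ^ (((m : ℝ) + 1 - n) * s) * ((2 : ℝ) ^ ((1 - s) * ka b * n) *
          (2 : ℝ) ^ ((-1 - L) * n)) =
          (2 : ℝ) ^ s * (2 : ℝ) ^ ((m : ℝ) * s + mu b * n * s) := by
        rw [← Real.rpow_add (by norm_num), ← Real.rpow_add (by norm_num),
          ← Real.rpow_add (by norm_num)]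
        congr 1
        have h1 : ((1 - s) * ka b - s * (1 + mu b) - 1 - L) * n = 0 := by rw [hid, zero_mul]
        linarith
      have e2 : (2 : ℝ) ^ (-(ε * s * n)) * (2 : ℝ) ^ ((m : ℝ) * s + (mu b + ε) * n * s) =
          (2 : ℝ) ^ ((m : ℝ) * s + mu b * n * s) := by
        rw [← Real.rpow_add (by norm_num)]
        congr 1
        ring
      calc (2 : ℝ) ^ (((m : ℝ) + 1 - n) * s) * (3 * r * (2 : ℝ) ^ ((-1 - L) * n))
          = 3 * ((2 : ℝ) ^ (((m : ℝ) + 1 - n) * s) * (2 : ℝ) ^ ((-1 - L) * n)) * r := by ring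
        _ ≤ 3 * ((2 : ℝ) ^ (((m : ℝ) + 1 - n) * s) * (2 : ℝ) ^ ((-1 - L) * n)) *
            ((r : ℝ) ^ s * (2 : ℝ) ^ ((1 - s) * ka b * n)) :=
            mul_le_mul_of_nonneg_left hr2 (by positivity)
        _ = 3 * (r : ℝ) ^ s * ((2 : ℝ) ^ (((m : ℝ) + 1 - n) * s) *
            ((2 : ℝ) ^ ((1 - s) * ka b * n) * (2 : ℝ) ^ ((-1 - L) * n))) := by ring
        _ = 3 * (r : ℝ) ^ s * ((2 : ℝ) ^ s * (2 : ℝ) ^ ((m : ℝ) * s + mu b * n * s)) := by
            rw [e1]
        _ ≤ 3 * (r : ℝ) ^ s * (4 * (2 : ℝ) ^ ((m : ℝ) * s + mu b * n * s)) := by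
            refine mul_le_mul_of_nonneg_left ?_ (by positivity)
            exact mul_le_mul_of_nonneg_right (by linarith) (by positivity)
        _ = 12 * (r : ℝ) ^ s * ((2 : ℝ) ^ (-(ε * s * n)) *
            (2 : ℝ) ^ ((m : ℝ) * s + (mu b + ε) * n * s)) := by
            rw [e2]
            ring
        _ = _ := by ring
    have hTs0 : 0 < T ^ s := Real.rpow_pos_of_pos hTpos s
    refine le_of_mul_le_mul_right ?_ hTs0
    calc _ ≤ _ := hM
      _ ≤ A ^ s * (3 * r * ((4 ^ m) ^ r * ((1 + w) / 2) ^ n)) := hSS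
      _ = A ^ s * (3 * r * ((1 + w) / 2) ^ n) * (4 ^ m) ^ r := by ring
      _ ≤ 12 * 2 ^ (-(ε * s * n)) * T ^ s * (4 ^ m) ^ r :=
          mul_le_mul_of_nonneg_right hkey h4.le
      _ = _ := by ring

end Pool.Agent.H63.PT
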